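import Pool.Agent.H6.LT.DerAux

/-! DER: the order of a zero is detected by the derivatives in two directions. -/

set_option autoImplicit false

namespace Pool.Agent.H6.LT.DER

open MvPolynomial Pool.Agent.H30.LT Pool.Agent.H6.LT.DerAux

section
variable {𝔸 τ : Type} [CommRing 𝔸] [Fintype τ]

lemma pderiv_lin (ω : τ → 𝔸) (p : τ) : pderiv p (lin ω) = C (ω p) := by
  classical
  unfold lin
  rw [map_sum]
  rw [Finset.sum_eq_single p]
  · rw [pderiv_C_mul, pderiv_X_self, mul_one]
  · intro t _ ht
    rw [pderiv_C_mul, pderiv_X_of_ne ht, mul_zero]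
  · intro h
    exact absurd (Finset.mem_univ p) h

open Classical in
/-- the substitution which kills the two linear forms -/
noncomputable def phi (p p' : τ) (v v' : 𝔸) (ω ω' : τ → 𝔸) : MvPolynomial τ 𝔸 →ₐ[𝔸] MvPolynomial τ 𝔸 :=
  aeval fun t => if t = p then X p - C v * lin ω else if t = p' then X p' - C v' * lin ω' else X t

lemma phi_lin {p p' : τ} {v v' : 𝔸} {ω ω' : τ → 𝔸} (hv : ω p * v = 1) (h0 : ω p' = 0) :
    phi p p' v v' ω ω' (lin ω) = 0 := by
  classical
  have h : ∀ t, C (ω t) * phi p p' v v' ω ω' (X t) =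
      C (ω t) * X t - if t = p then lin ω else 0 := by
    intro t
    unfold phi
    rw [aeval_X]
    by_cases h1 : t = p
    · rw [if_pos h1, if_pos h1, h1, mul_sub, ← mul_assoc, ← C_mul, hv, C_1, one_mul]
    · rw [if_neg h1, if_neg h1]
      by_cases h2 : t = p'
      · rw [h2, h0, C_0]
        ring
      · rw [if_neg h2, sub_zero]
  have h1 : phi p p' v v' ω ω' (lin ω) = ∑ t, C (ω t) * phi p p' v v' ω ω' (X t) := by
    unfold lin
    rw [map_sum]
    refine Finset.sum_congr rfl fun t _ => ?_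
    rw [map_mul]
    congr 1
    exact (phi p p' v v' ω ω').commutes (ω t)
  rw [h1, Finset.sum_congr rfl fun t _ => h t, Finset.sum_sub_distrib, Finset.sum_ite_eq',
    if_pos (Finset.mem_univ p)]
  exact sub_self _

lemma phi_lin' {p p' : τ} {v v' : 𝔸} {ω ω' : τ → 𝔸} (hpp : p' ≠ p) (hv : ω' p' * v' = 1)
    (h0 : ω' p = 0) : phi p p' v v' ω ω' (lin ω') = 0 := by
  classical
  have h : ∀ t, C (ω' t) * phi p p' v v' ω ω' (X t) =
      C (ω' t) * X t - if t = p' then lin ω' else 0 := by
    intro t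
    unfold phi
    rw [aeval_X]
    by_cases h1 : t = p'
    · rw [if_pos h1, h1, if_neg hpp, if_pos rfl, mul_sub, ← mul_assoc, ← C_mul, hv, C_1, one_mul]
    · rw [if_neg h1, if_neg h1]
      by_cases h2 : t = p
      · rw [h2, h0, C_0]
        ring
      · rw [if_neg h2, sub_zero]
  have h1 : phi p p' v v' ω ω' (lin ω') = ∑ t, C (ω' t) * phi p p' v v' ω ω' (X t) := by
    unfold lin
    rw [map_sum]
    refine Finset.sum_congr rfl fun t _ => ?_
    rw [map_mul]
    congr 1
    exact (phi p p' v v' ω ω').commutes (ω' t)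
  rw [h1, Finset.sum_congr rfl fun t _ => h t, Finset.sum_sub_distrib, Finset.sum_ite_eq',
    if_pos (Finset.mem_univ p')]
  exact sub_self _

lemma sub_phi_mem (p p' : τ) (v v' : 𝔸) (ω ω' : τ → 𝔸) (f : MvPolynomial τ 𝔸) :
    f - phi p p' v v' ω ω' f ∈ Ideal.span {lin ω, lin ω'} := by
  classical
  have hL : lin ω ∈ Ideal.span {lin ω, lin ω'} := Ideal.subset_span (by simp)
  have hL' : lin ω' ∈ Ideal.span {lin ω, lin ω'} := Ideal.subset_span (by simp)
  induction f using MvPolynomial.induction_on with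
  | C a =>
    have h : phi p p' v v' ω ω' (C a) = C a := (phi p p' v v' ω ω').commutes a
    rw [h, sub_self]
    exact Ideal.zero_mem _
  | add f g hf hg =>
    rw [map_add]
    have h := Ideal.add_mem _ hf hg
    have h2 : f - phi p p' v v' ω ω' f + (g - phi p p' v v' ω ω' g) =
      f + g - (phi p p' v v' ω ω' f + phi p p' v v' ω ω' g) := by ring
    rwa [h2] at h
  | mul_X f t hf =>
    rw [map_mul]
    have hX : X t - phi p p' v v' ω ω' (X t) ∈ Ideal.span {lin ω, lin ω'} := by
      unfold phi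
      rw [aeval_X]
      by_cases h1 : t = p
      · rw [if_pos h1, h1, sub_sub_cancel]
        exact Ideal.mul_mem_left _ _ hL
      · rw [if_neg h1]
        by_cases h2 : t = p'
        · rw [if_pos h2, h2, sub_sub_cancel]
          exact Ideal.mul_mem_left _ _ hL'
        · rw [if_neg h2, sub_self]
          exact Ideal.zero_mem _
    have h := Ideal.add_mem _ (Ideal.mul_mem_right (X t) _ hf)
      (Ideal.mul_mem_left _ (phi p p' v v' ω ω' f) hX)
    have h2 : (f - phi p p' v v' ω ω' f) * X t + phi p p' v v' ω ω' f *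
        (X t - phi p p' v v' ω ω' (X t)) =
        f * X t - phi p p' v v' ω ω' f * phi p p' v v' ω ω' (X t) := by ring
    rwa [h2] at h

end

theorem pf_DER : T_DER := by
  intro 𝔸 τ _ _ _ _ p p' ω ω' hu h0 hu' h0' j G hG hD
  classical
  obtain ⟨v, hv⟩ := hu.exists_right_inv
  obtain ⟨v', hv'⟩ := hu'.exists_right_inv
  have hpp : p' ≠ p := by
    rintro rfl
    rw [h0, zero_mul] at hv
    exact zero_ne_one hv
  have hω : ω p ≠ 0 := hu.ne_zero
  have hω' : ω' p' ≠ 0 := hu'.ne_zero
  set J := Ideal.span {lin ω, lin ω'} with hJ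
  have hker : ∀ f ∈ J, phi p p' v v' ω ω' f = 0 := by
    intro f hf
    obtain ⟨a, b, rfl⟩ := Ideal.mem_span_pair.1 hf
    rw [map_add, map_mul, map_mul, phi_lin hv h0, phi_lin' hpp hv' h0']
    ring
  obtain ⟨c, hc⟩ := mem_pair_pow (lin ω) (lin ω') j G hG
  have h1 : pderiv p (lin ω) = C (ω p) := pderiv_lin ω p
  have h2 : pderiv p (lin ω') = 0 := by rw [pderiv_lin, h0', C_0]
  have h3 : pderiv p' (lin ω) = 0 := by rw [pderiv_lin, h0, C_0]
  have h4 : pderiv p' (lin ω') = C (ω' p') := pderiv_lin ω' p'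
  -- the derivatives of the products
  have hP : ∀ i ≤ j, ∀ k ≤ j, (pderiv p)^[i] ((pderiv p')^[j - i]
      (lin ω ^ k * lin ω' ^ (j - k))) =
        ((k.descFactorial i * (j - k).descFactorial (j - i) : ℕ) : MvPolynomial τ 𝔸) *
          (C (ω p) ^ i * C (ω' p') ^ (j - i)) * (lin ω ^ (k - i) * lin ω' ^ (j - k - (j - i))) := by
    intro i _ k _
    have e1 : pderiv p' (lin ω ^ k) = 0 := by
      rw [(pderiv p').leibniz_pow, h3, smul_zero, smul_zero]
    rw [iter_const (pderiv p') (j - i) e1, iter_pow (pderiv p') h4 (pderiv_C)]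
    have e2 : pderiv p (((j - k).descFactorial (j - i) : MvPolynomial τ 𝔸) * C (ω' p') ^ (j - i) *
        lin ω' ^ (j - k - (j - i))) = 0 := by
      rw [(pderiv p).leibniz, (pderiv p).leibniz_pow, h2, (pderiv p).leibniz,
        (pderiv p).leibniz_pow, pderiv_C, (pderiv p).map_natCast]
      simp
    rw [mul_comm (lin ω ^ k), iter_const (pderiv p) i e2, iter_pow (pderiv p) h1 pderiv_C,
      Nat.cast_mul]
    ring
  have hz : ∀ i ≤ j, ∀ k ≤ j, k ≠ i → (pderiv p)^[i] ((pderiv p')^[j - i]
      (lin ω ^ k * lin ω' ^ (j - k))) = 0 := by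
    intro i hi k hk hki
    rw [hP i hi k hk]
    rcases Nat.lt_or_gt_of_ne hki with h | h
    · rw [Nat.descFactorial_of_lt h]
      simp
    · rw [Nat.descFactorial_of_lt (show j - k < j - i by omega)]
      simp
  have hmem : ∀ k, lin ω ^ k * lin ω' ^ (j - k) ∈ J ^ j ∨ j < k := by
    intro k
    rcases Nat.lt_or_ge j k with h | h
    · exact Or.inr h
    · left
      have h5 : k + (j - k) = j := by omega
      have h6 := Ideal.mul_mem_mul
        (Ideal.pow_mem_pow (show lin ω ∈ J from Ideal.subset_span (by simp)) k)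
        (Ideal.pow_mem_pow (show lin ω' ∈ J from Ideal.subset_span (by simp)) (j - k))
      rw [← pow_add, h5] at h6
      exact h6
  have hcJ : ∀ i ≤ j, c i ∈ J := by
    intro i hi
    have h5 := hD i hi
    rw [hc, iter_sum, iter_sum] at h5
    have h6 : ∀ k ∈ Finset.range (j + 1), (pderiv p)^[i] ((pderiv p')^[j - i]
        (c k * (lin ω ^ k * lin ω' ^ (j - k)))) - c k * (pderiv p)^[i] ((pderiv p')^[j - i]
        (lin ω ^ k * lin ω' ^ (j - k))) ∈ J := by
      intro k hk
      have hk' := Finset.mem_range.1 hk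
      have h7 := (hmem k).resolve_right (by omega)
      have h8 : 0 + i + (j - i) = j := by omega
      have h9 := iter_quasi2 (pderiv p) (pderiv p') J (c k) i (j - i) 0
        (G := lin ω ^ k * lin ω' ^ (j - k)) (by rw [h8]; exact h7)
      rwa [zero_add, pow_one] at h9
    have h7 := Ideal.sum_mem _ h6
    rw [Finset.sum_sub_distrib] at h7
    have h8 := Ideal.sub_mem _ h5 h7
    rw [sub_sub_cancel, Finset.sum_eq_single i] at h8
    · rw [hP i hi i hi, Nat.sub_self, Nat.sub_self, pow_zero, pow_zero, mul_one, mul_one,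
        ← C_pow, ← C_pow, ← C_mul] at h8
      have h9 := hker _ h8
      have hC : ∀ a : 𝔸, phi p p' v v' ω ω' (C a) = C a :=
        fun a => (phi p p' v v' ω ω').commutes a
      rw [map_mul, map_mul, map_natCast, hC] at h9
      have hn : ((i.descFactorial i * (j - i).descFactorial (j - i) : ℕ) : MvPolynomial τ 𝔸) ≠ 0 := by
        rw [Nat.descFactorial_self, Nat.descFactorial_self]
        exact_mod_cast Nat.mul_ne_zero (Nat.factorial_ne_zero _) (Nat.factorial_ne_zero _)
      have hm : (C (ω p ^ i * ω' p' ^ (j - i)) : MvPolynomial τ 𝔸) ≠ 0 := by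
        rw [Ne, C_eq_zero]
        exact mul_ne_zero (pow_ne_zero _ hω) (pow_ne_zero _ hω')
      have h10 := (mul_eq_zero.1 h9).resolve_right (mul_ne_zero hn hm)
      have h11 := sub_phi_mem p p' v v' ω ω' (c i)
      rwa [h10, sub_zero] at h11
    · intro k hk hki
      have hk' := Finset.mem_range.1 hk
      rw [hz i hi k (by omega) hki, mul_zero]
    · intro h
      exact absurd (Finset.mem_range.2 (by omega)) h
  rw [hc, pow_succ']
  refine Ideal.sum_mem _ fun k hk => ?_
  have hk' := Finset.mem_range.1 hk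
  exact Ideal.mul_mem_mul (hcJ k (by omega)) ((hmem k).resolve_right (by omega))

end Pool.Agent.H6.LT.DER
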