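import Pool.Agent.H6.LT.RCO
import Pool.Agent.H6.LT.DER

/-! LEV: the number of conditions for a zero of order `j + 1` instead of `j`. -/

set_option autoImplicit false

namespace Pool.Agent.H6.LT.LEV

open MvPolynomial Pool.Agent.H30.LT Pool.Agent.H6.LT.DerAux Cardinal

attribute [local instance] MvPolynomial.algebraMvPolynomial

lemma rank_fin_fun {B Q : Type} [CommRing B] [IsDomain B] [AddCommGroup Q] [Module B Q] (n : ℕ) :
    Module.rank B (Fin n → Q) ≤ n * Module.rank B Q := by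
  induction n with
  | zero =>
    rw [rank_subsingleton']
    exact zero_le
  | succ n ih =>
    have h := LinearMap.rank_range_add_rank_ker
      (LinearMap.proj 0 : (Fin (n + 1) → Q) →ₗ[B] Q)
    rw [← h]
    have h1 : Module.rank B (LinearMap.range (LinearMap.proj 0 : (Fin (n + 1) → Q) →ₗ[B] Q)) ≤
        Module.rank B Q := Submodule.rank_le _
    have h2 : Module.rank B (LinearMap.ker (LinearMap.proj 0 : (Fin (n + 1) → Q) →ₗ[B] Q)) ≤
        Module.rank B (Fin n → Q) := by
      refine LinearMap.rank_le_of_injective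
        ((LinearMap.funLeft B Q Fin.succ).comp (Submodule.subtype _)) ?_
      rintro ⟨x, hx⟩ ⟨y, hy⟩ hxy
      rw [LinearMap.mem_ker] at hx hy
      apply Subtype.ext
      change x = y
      funext i
      refine Fin.cases ?_ (fun i => ?_) i
      · exact (hx : x 0 = 0).trans (hy : y 0 = 0).symm
      · exact congrFun hxy i
    calc _ ≤ Module.rank B Q + n * Module.rank B Q := add_le_add h1 (h2.trans ih)
      _ = _ := by
        rw [Nat.cast_add, Nat.cast_one, add_mul, one_mul, add_comm]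

lemma pderiv_cof {R 𝔸 τ : Type} [CommRing R] [CommRing 𝔸] [Algebra R 𝔸] {V : Submodule R 𝔸}
    (p : τ) {G : MvPolynomial τ 𝔸} (hG : G ∈ cof τ V) : pderiv p G ∈ cof τ V := by
  classical
  intro m
  rw [coeff_pderiv]
  have h : coeff (m + Finsupp.single p 1) G * ((m p : 𝔸) + 1) =
      (m p + 1) • coeff (m + Finsupp.single p 1) G := by
    rw [nsmul_eq_mul, mul_comm, Nat.cast_add, Nat.cast_one]
  rw [h]
  exact nsmul_mem (hG _) _

lemma iter_cof {R 𝔸 τ : Type} [CommRing R] [CommRing 𝔸] [Algebra R 𝔸] {V : Submodule R 𝔸}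
    (p : τ) (a : ℕ) {G : MvPolynomial τ 𝔸} (hG : G ∈ cof τ V) : (pderiv p)^[a] G ∈ cof τ V := by
  induction a with
  | zero => exact hG
  | succ a ih =>
    rw [Function.iterate_succ_apply']
    exact pderiv_cof p ih

theorem pf_LEV : T_LEV := by
  intro R 𝔸 τ _ _ _ _ _ _ _ V p p' ω ω' hinj hV hu h0 hu' h0' j
  classical
  set J := Ideal.span {Pool.Agent.H30.LT.lin ω, Pool.Agent.H30.LT.lin ω'} with hJ
  let B := MvPolynomial τ R
  let T : Submodule (MvPolynomial τ R) (MvPolynomial τ 𝔸) := cof τ V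
  have hrT : Module.rank (MvPolynomial τ R) T < ℵ₀ := by
    have h := RCO.pf_RCO R 𝔸 τ V hinj hV
    rw [show Module.rank (MvPolynomial τ R) T = Module.rank R V from h]
    exact hV
  let E : Ideal (MvPolynomial τ 𝔸) → Submodule (MvPolynomial τ R) (MvPolynomial τ 𝔸) :=
    fun I => T ⊓ I.restrictScalars (MvPolynomial τ R)
  have hrE : ∀ I, Module.rank (MvPolynomial τ R) (E I) < ℵ₀ := fun I =>
    lt_of_le_of_lt (Submodule.rank_mono inf_le_left) hrT
  have hcast : ∀ I, (rkI V I : Cardinal) = Module.rank (MvPolynomial τ R) (E I) := fun I =>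
    Cardinal.cast_toNat_of_lt_aleph0 (hrE I)
  have hE1T : E J ≤ T := inf_le_left
  let N : Submodule (MvPolynomial τ R) T := (E J).submoduleOf T
  let D : ℕ → MvPolynomial τ 𝔸 → MvPolynomial τ 𝔸 := fun i G =>
    (pderiv p)^[i] ((pderiv p')^[j - i] G)
  have hDT : ∀ i, ∀ G ∈ T, D i G ∈ T := fun i G hG => iter_cof p i (iter_cof p' (j - i) hG)
  have hDadd : ∀ i x y, D i (x + y) = D i x + D i y := fun i x y => by
    change (pderiv p)^[i] ((pderiv p')^[j - i] (x + y)) = _
    rw [iter_add, iter_add]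
  have hDsmul : ∀ i ≤ j, ∀ (f : MvPolynomial τ R), ∀ G ∈ J ^ j,
      D i (f • G) - f • D i G ∈ J := by
    intro i hi f G hG
    rw [RCO.smul_eq_map, RCO.smul_eq_map]
    have h8 : 0 + i + (j - i) = j := by omega
    have h9 := iter_quasi2 (pderiv p) (pderiv p') J (MvPolynomial.map (algebraMap R 𝔸) f) i (j - i) 0
      (G := G) (by rw [h8]; exact hG)
    rwa [zero_add, pow_one] at h9
  let Φ : E (J ^ j) →ₗ[MvPolynomial τ R] (Fin (j + 1) → T ⧸ N) :=
    { toFun := fun G i => Submodule.Quotient.mk ⟨D i G.1, hDT i G.1 G.2.1⟩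
      map_add' := by
        intro x y
        funext i
        rw [Pi.add_apply, ← Submodule.Quotient.mk_add]
        congr 1
        exact Subtype.ext (hDadd i x.1 y.1)
      map_smul' := by
        intro f x
        funext i
        rw [Pi.smul_apply, RingHom.id_apply, ← Submodule.Quotient.mk_smul,
          Submodule.Quotient.eq]
        have h1 := hDsmul i (by omega) f x.1 x.2.2
        refine ⟨?_, h1⟩
        exact T.sub_mem (hDT i _ (f • x).2.1) (T.smul_mem f (hDT i _ x.2.1)) }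
  have hker : ∀ G : E (J ^ j), Φ G = 0 → G.1 ∈ E (J ^ (j + 1)) := by
    intro G hG
    refine ⟨G.2.1, ?_⟩
    refine DER.pf_DER 𝔸 τ p p' ω ω' hu h0 hu' h0' j G.1 G.2.2 ?_
    intro i hi
    have h1 := congrFun hG ⟨i, by omega⟩
    have h2 : (⟨D i G.1, hDT i G.1 G.2.1⟩ : T) ∈ N := (Submodule.Quotient.mk_eq_zero N).1 h1
    exact h2.2
  have hEE : E (J ^ (j + 1)) ≤ E (J ^ j) := by
    rintro x ⟨hx, hx'⟩
    exact ⟨hx, Ideal.pow_le_pow_right (Nat.le_succ j) hx'⟩
  have r1 := LinearMap.rank_range_add_rank_ker Φ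
  have r2 : Module.rank (MvPolynomial τ R) (LinearMap.ker Φ) ≤
      Module.rank (MvPolynomial τ R) (E (J ^ (j + 1))) := by
    rw [← (Submodule.submoduleOfEquivOfLe hEE).rank_eq]
    refine Submodule.rank_mono ?_
    intro G hG
    exact hker G hG
  have r3 : Module.rank (MvPolynomial τ R) (LinearMap.range Φ) ≤
      (j + 1 : ℕ) * Module.rank (MvPolynomial τ R) (T ⧸ N) :=
    (Submodule.rank_le _).trans (rank_fin_fun (j + 1))
  have r4 := Submodule.rank_quotient_add_rank N
  rw [(Submodule.submoduleOfEquivOfLe hE1T).rank_eq] at r4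
  have hT : E ⊤ = T := by
    change T ⊓ (⊤ : Ideal (MvPolynomial τ 𝔸)).restrictScalars (MvPolynomial τ R) = T
    rw [Submodule.restrictScalars_top, inf_top_eq]
  have c1 := hcast (J ^ j)
  have c2 := hcast (J ^ (j + 1))
  have c3 := hcast J
  have c4 := hcast ⊤
  rw [hT] at c4
  have hQ : Module.rank (MvPolynomial τ R) (T ⧸ N) < ℵ₀ := by
    refine lt_of_le_of_lt ?_ hrT
    rw [← r4]
    exact self_le_add_right _ _
  obtain ⟨q, hq⟩ := Cardinal.lt_aleph0.1 hQ
  rw [hq, ← c3, ← c4] at r4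
  rw [hq] at r3
  have r5 : q + rkI V J = rkI (τ := τ) V ⊤ := by exact_mod_cast r4
  have r6 : rkI V (J ^ j) ≤ (j + 1) * q + rkI V (J ^ (j + 1)) := by
    have h := add_le_add r3 (r2.trans_eq c2.symm)
    rw [r1, ← c1] at h
    exact_mod_cast h
  rw [← r5]
  calc rkI V (J ^ j) + (j + 1) * rkI V J
      ≤ (j + 1) * q + rkI V (J ^ (j + 1)) + (j + 1) * rkI V J := Nat.add_le_add_right r6 _
    _ = rkI V (J ^ (j + 1)) + (j + 1) * (q + rkI V J) := by ring

end Pool.Agent.H6.LT.LEV
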