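import Pool.Agent.H30.LT.Targets

/-! RCO: the rank of the module of the polynomials with coefficients in a submodule. -/

set_option autoImplicit false

namespace Pool.Agent.H6.LT.RCO

open MvPolynomial SC Pool.Agent.H27.LV Pool.Agent.H30.AV Pool.Agent.H30.AW Pool.Agent.H30.AX
  Pool.Agent.H30.LT Cardinal

attribute [local instance] MvPolynomial.algebraMvPolynomial

section
variable {R 𝔸 τ : Type} [CommRing R] [CommRing 𝔸] [Algebra R 𝔸]

lemma smul_eq_map (f : MvPolynomial τ R) (G : MvPolynomial τ 𝔸) :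
    f • G = map (algebraMap R 𝔸) f * G := by
  rw [Algebra.smul_def, MvPolynomial.algebraMap_def]

lemma smul_C_C (c : R) (x : 𝔸) : (C c : MvPolynomial τ R) • (C x : MvPolynomial τ 𝔸) = C (c • x) := by
  rw [smul_eq_map, map_C, ← C_mul, Algebra.smul_def]

lemma smul_C_smul (c : R) (x : 𝔸) (f : MvPolynomial τ R) :
    (C c : MvPolynomial τ R) • (f • (C x : MvPolynomial τ 𝔸)) = f • C (c • x) := by
  rw [smul_comm, smul_C_C]

lemma coeff_smul_C (f : MvPolynomial τ R) (x : 𝔸) (m : τ →₀ ℕ) :
    coeff m (f • (C x : MvPolynomial τ 𝔸)) = coeff m f • x := by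
  rw [smul_eq_map, mul_comm, coeff_C_mul, coeff_map, Algebra.smul_def, mul_comm]

lemma C_mem_cof {V : Submodule R 𝔸} {x : 𝔸} (hx : x ∈ V) : (C x : MvPolynomial τ 𝔸) ∈ cof τ V := by
  classical
  intro m
  rw [coeff_C]
  split_ifs
  · exact hx
  · exact V.zero_mem

lemma C_mem_span {ι : Type} (v : ι → 𝔸) {x : 𝔸} (hx : x ∈ Submodule.span R (Set.range v)) :
    (C x : MvPolynomial τ 𝔸) ∈ Submodule.span (MvPolynomial τ R)
      (Set.range fun i => (C (v i) : MvPolynomial τ 𝔸)) := by
  induction hx using Submodule.span_induction with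
  | mem x hx =>
    obtain ⟨i, rfl⟩ := hx
    exact Submodule.subset_span ⟨i, rfl⟩
  | zero => rw [C_0]; exact Submodule.zero_mem _
  | add x y _ _ hx hy => rw [C_add]; exact Submodule.add_mem _ hx hy
  | smul c x _ hx =>
    rw [← smul_C_C]
    exact Submodule.smul_mem _ _ hx

lemma eq_sum (G : MvPolynomial τ 𝔸) :
    G = ∑ m ∈ G.support, (monomial m (1 : R)) • (C (coeff m G) : MvPolynomial τ 𝔸) := by
  conv_lhs => rw [G.as_sum]
  refine Finset.sum_congr rfl fun m _ => ?_
  rw [smul_eq_map, map_monomial, map_one, mul_comm, C_mul_monomial, mul_one]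

end

theorem pf_RCO : T_RCO := by
  intro R 𝔸 τ _ _ _ _ _ V hinj hV
  classical
  obtain ⟨n, hn⟩ := Cardinal.lt_aleph0.1 hV
  obtain ⟨v0, hli⟩ := exists_linearIndependent_of_le_rank (R := R) (M := V) (n := n)
    hn.symm.le
  -- the span in `V` has full rank
  have htor : ∀ x : V, ∃ a : R, a ≠ 0 ∧ a • x ∈ Submodule.span R (Set.range v0) := by
    set S := Submodule.span R (Set.range v0) with hS
    have h1 : Module.rank R S = n := by
      rw [hS, rank_span hli, Cardinal.mk_range_eq _ hli.injective]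
      simp
    have h2 := Submodule.rank_quotient_add_rank S
    rw [h1, hn] at h2
    have h3 : Module.rank R (V ⧸ S) = 0 := by
      have h4 : Module.rank R (V ⧸ S) < ℵ₀ := by
        refine lt_of_le_of_lt ?_ (Cardinal.natCast_lt_aleph0 (n := n))
        rw [← h2]
        exact self_le_add_right _ _
      obtain ⟨k, hk⟩ := Cardinal.lt_aleph0.1 h4
      rw [hk] at h2 ⊢
      have : k + n = n := by exact_mod_cast h2
      have : k = 0 := by omega
      rw [this]
      rfl
    rw [rank_eq_zero_iff] at h3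
    intro x
    obtain ⟨a, ha, hax⟩ := h3 (Submodule.Quotient.mk x)
    refine ⟨a, ha, ?_⟩
    rw [← Submodule.Quotient.mk_smul, Submodule.Quotient.mk_eq_zero] at hax
    exact hax
  let v : Fin n → 𝔸 := fun i => (v0 i : 𝔸)
  have hv : LinearIndependent R v := hli.map' V.subtype (Submodule.ker_subtype V)
  let N : Submodule (MvPolynomial τ R) (MvPolynomial τ 𝔸) :=
    Submodule.span (MvPolynomial τ R) (Set.range fun i : Fin n => (C (v i) : MvPolynomial τ 𝔸))
  have hNV : N ≤ cof τ V := by
    rw [Submodule.span_le]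
    rintro _ ⟨i, rfl⟩
    exact C_mem_cof (v0 i).2
  have hliC : LinearIndependent (MvPolynomial τ R) fun i : Fin n => (C (v i) : MvPolynomial τ 𝔸) := by
    rw [Fintype.linearIndependent_iff]
    intro g hg i
    ext m
    rw [coeff_zero]
    rw [Fintype.linearIndependent_iff] at hv
    refine hv (fun i => coeff m (g i)) ?_ i
    have := congrArg (coeff m) hg
    rw [coeff_sum, coeff_zero] at this
    simpa only [coeff_smul_C] using this
  have hrN : Module.rank (MvPolynomial τ R) N = n := by
    rw [rank_span hliC, Cardinal.mk_range_eq _ hliC.injective]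
    simp
  have hspan : ∀ x ∈ V, ∃ a : R, a ≠ 0 ∧ a • x ∈ Submodule.span R (Set.range v) := by
    intro x hx
    obtain ⟨a, ha, hax⟩ := htor ⟨x, hx⟩
    refine ⟨a, ha, ?_⟩
    have h := Submodule.mem_map_of_mem (f := V.subtype) hax
    rw [Submodule.map_span, ← Set.range_comp] at h
    exact h
  choose! a ha0 ha using hspan
  have htorC : ∀ G ∈ cof τ V, ∃ f : MvPolynomial τ R, f ≠ 0 ∧ f • G ∈ N := by
    intro G hG
    refine ⟨C (∏ m ∈ G.support, a (coeff m G)), ?_, ?_⟩
    · rw [Ne, C_eq_zero, Finset.prod_eq_zero_iff]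
      rintro ⟨m, -, hm⟩
      exact ha0 _ (hG m) hm
    · have hsum := eq_sum (R := R) G
      rw [hsum, Finset.smul_sum]
      refine Submodule.sum_mem _ fun m hm => ?_
      rw [← hsum, smul_C_smul]
      refine Submodule.smul_mem _ _ (C_mem_span v ?_)
      rw [← Finset.mul_prod_erase _ _ hm, mul_comm, mul_smul]
      exact Submodule.smul_mem _ _ (ha _ (hG m))
  have hq : Module.rank (MvPolynomial τ R) (cof τ V ⧸ N.submoduleOf (cof τ V)) = 0 := by
    rw [rank_eq_zero_iff]
    intro x
    obtain ⟨G, rfl⟩ := Submodule.Quotient.mk_surjective _ x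
    obtain ⟨f, hf, hfG⟩ := htorC G.1 G.2
    refine ⟨f, hf, ?_⟩
    rw [← Submodule.Quotient.mk_smul, Submodule.Quotient.mk_eq_zero]
    exact hfG
  have h := Submodule.rank_quotient_add_rank (N.submoduleOf (cof τ V))
  rw [hq, zero_add, (Submodule.submoduleOfEquivOfLe hNV).rank_eq, hrN] at h
  rw [← h, hn]

end Pool.Agent.H6.LT.RCO
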