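import Pool.Agent.H30.LT.Targets

/-! Iterated derivations and powers of ideals. -/

set_option autoImplicit false

namespace Pool.Agent.H6.LT.DerAux

section
variable {A S : Type} [CommRing A] [CommRing S] [Algebra A S]

lemma der_pow_mem (D : Derivation A S S) (J : Ideal S) : ∀ (l : ℕ) {G : S}, G ∈ J ^ (l + 1) →
    D G ∈ J ^ l := by
  intro l
  induction l with
  | zero => intro G _; rw [pow_zero, Ideal.one_eq_top]; trivial
  | succ l ih =>
    intro G hG
    rw [pow_succ] at hG
    induction hG using Submodule.mul_induction_on' with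
    | mem_mul_mem a ha b hb =>
      rw [D.leibniz, smul_eq_mul, smul_eq_mul]
      refine Ideal.add_mem _ (Ideal.mul_mem_right _ _ ha) ?_
      rw [mul_comm, pow_succ]
      exact Ideal.mul_mem_mul (ih ha) hb
    | add x _ y _ hx hy => rw [map_add]; exact Ideal.add_mem _ hx hy

lemma iter_pow_mem (D : Derivation A S S) (J : Ideal S) : ∀ (a l : ℕ) {G : S},
    G ∈ J ^ (l + a) → D^[a] G ∈ J ^ l := by
  intro a
  induction a with
  | zero => intro l G hG; exact hG
  | succ a ih =>
    intro l G hG
    rw [Function.iterate_succ_apply']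
    refine der_pow_mem D J l (ih (l + 1) ?_)
    have h : l + 1 + a = l + (a + 1) := by omega
    rw [h]
    exact hG

lemma iter_add (D : Derivation A S S) (a : ℕ) (x y : S) : D^[a] (x + y) = D^[a] x + D^[a] y := by
  induction a with
  | zero => rfl
  | succ a ih => rw [Function.iterate_succ_apply', ih, map_add, Function.iterate_succ_apply',
      Function.iterate_succ_apply']

lemma iter_sum (D : Derivation A S S) (a : ℕ) {ι : Type} (s : Finset ι) (f : ι → S) :
    D^[a] (∑ i ∈ s, f i) = ∑ i ∈ s, D^[a] (f i) := by
  induction a with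
  | zero => rfl
  | succ a ih =>
    rw [Function.iterate_succ_apply', ih, map_sum]
    exact Finset.sum_congr rfl fun i _ => (Function.iterate_succ_apply' _ _ _).symm

/-- the derivations are linear modulo higher powers -/
lemma iter_quasi (D : Derivation A S S) (J : Ideal S) (f : S) : ∀ (a m : ℕ) {G : S},
    G ∈ J ^ (m + a) → D^[a] (f * G) - f * D^[a] G ∈ J ^ (m + 1) := by
  intro a
  induction a with
  | zero => intro m G _; simp
  | succ a ih =>
    intro m G hG
    have h : m + 1 + a = m + (a + 1) := by omega
    rw [← h] at hG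
    have h1 := ih (m + 1) hG
    have h2 := der_pow_mem D J (m + 1) h1
    have h3 := iter_pow_mem D J a (m + 1) hG
    rw [map_sub, D.leibniz, smul_eq_mul, smul_eq_mul] at h2
    rw [Function.iterate_succ_apply', Function.iterate_succ_apply']
    have h4 := Ideal.add_mem _ h2 (Ideal.mul_mem_right (D f) _ h3)
    have h5 : D (D^[a] (f * G)) - (f * D (D^[a] G) + D^[a] G * D f) + D^[a] G * D f =
      D (D^[a] (f * G)) - f * D (D^[a] G) := by ring
    rwa [h5] at h4

/-- the same for two derivations -/
lemma iter_quasi2 (D D' : Derivation A S S) (J : Ideal S) (f : S) (a b m : ℕ) {G : S}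
    (hG : G ∈ J ^ (m + a + b)) :
    D^[a] (D'^[b] (f * G)) - f * D^[a] (D'^[b] G) ∈ J ^ (m + 1) := by
  have h1 := iter_quasi D' J f b (m + a) hG
  have h2 := iter_quasi D J f a m (iter_pow_mem D' J b (m + a) hG)
  have h3 : m + a + 1 = m + 1 + a := by omega
  rw [h3] at h1
  have h4 := iter_pow_mem D J a (m + 1) h1
  have h5 := Ideal.add_mem _ h4 h2
  have h6 : D'^[b] (f * G) = (D'^[b] (f * G) - f * D'^[b] G) + f * D'^[b] G := by ring
  have h7 : D^[a] (D'^[b] (f * G)) = D^[a] (D'^[b] (f * G) - f * D'^[b] G) +
      D^[a] (f * D'^[b] G) := by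
    conv_lhs => rw [h6]
    rw [iter_add]
  have h8 : D^[a] (D'^[b] (f * G) - f * D'^[b] G) + (D^[a] (f * D'^[b] G) -
      f * D^[a] (D'^[b] G)) = D^[a] (D'^[b] (f * G) - f * D'^[b] G) +
      D^[a] (f * D'^[b] G) - f * D^[a] (D'^[b] G) := by ring
  rw [h8] at h5
  rw [h7]
  exact h5

lemma iter_const (D : Derivation A S S) (a : ℕ) {y : S} (hy : D y = 0) (z : S) :
    D^[a] (y * z) = y * D^[a] z := by
  induction a with
  | zero => rfl
  | succ a ih =>
    rw [Function.iterate_succ_apply', ih, D.leibniz, hy, smul_zero, add_zero, smul_eq_mul,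
      Function.iterate_succ_apply']

lemma iter_pow (D : Derivation A S S) {x c : S} (hx : D x = c) (hc : D c = 0) (k a : ℕ) :
    D^[a] (x ^ k) = (k.descFactorial a : S) * c ^ a * x ^ (k - a) := by
  induction a with
  | zero => simp
  | succ a ih =>
    rw [Function.iterate_succ_apply', ih, D.leibniz, D.leibniz_pow, D.leibniz, D.leibniz_pow, hx,
      hc, Nat.descFactorial_succ]
    simp only [smul_zero, smul_eq_mul, D.map_natCast, add_zero, nsmul_eq_mul, mul_zero]
    rw [Nat.cast_mul, pow_succ]
    have h : k - a - 1 = k - (a + 1) := by omega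
    rw [h]
    ring

/-- powers of ideals with two generators -/
lemma mem_pair_pow (x y : S) : ∀ (j : ℕ) (G : S), G ∈ Ideal.span {x, y} ^ j →
    ∃ c : ℕ → S, G = ∑ k ∈ Finset.range (j + 1), c k * (x ^ k * y ^ (j - k)) := by
  intro j
  induction j with
  | zero => intro G _; exact ⟨fun _ => G, by simp⟩
  | succ j ih =>
    intro G hG
    rw [pow_succ] at hG
    induction hG using Submodule.mul_induction_on' with
    | mem_mul_mem a ha b hb =>
      obtain ⟨c, rfl⟩ := ih a ha
      obtain ⟨u, v, rfl⟩ := Ideal.mem_span_pair.1 hb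
      refine ⟨fun k => (if k = 0 then 0 else u * c (k - 1)) + if k = j + 1 then 0 else v * c k, ?_⟩
      simp only [add_mul, Finset.sum_add_distrib]
      rw [mul_add]
      congr 1
      · rw [Finset.sum_range_succ' _ (j + 1)]
        simp only [if_pos, zero_mul, add_zero, Nat.succ_ne_zero, if_false, Nat.add_sub_cancel,
          Nat.add_sub_add_right]
        rw [Finset.sum_mul]
        refine Finset.sum_congr rfl fun k _ => ?_
        rw [pow_succ]
        ring
      · rw [Finset.sum_range_succ _ (j + 1)]
        simp only [if_pos, zero_mul, add_zero]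
        rw [Finset.sum_mul]
        refine Finset.sum_congr rfl fun k hk => ?_
        have hk' := Finset.mem_range.1 hk
        rw [if_neg (by omega)]
        have h : j + 1 - k = j - k + 1 := by omega
        rw [h, pow_succ]
        ring
    | add x1 _ y1 _ hx hy =>
      obtain ⟨c, rfl⟩ := hx
      obtain ⟨d, rfl⟩ := hy
      refine ⟨fun k => c k + d k, ?_⟩
      rw [← Finset.sum_add_distrib]
      exact Finset.sum_congr rfl fun k _ => by ring

end

end Pool.Agent.H6.LT.DerAux
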